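import Pool.Agent.T6.H9.TP.Lim

/-!
# Holomorphy of the polar part in the region of absolute convergence

Owner helper9.
-/

set_option autoImplicit false
set_option linter.unusedSectionVars false
set_option linter.style.haveILetI false
set_option linter.unusedVariables false

open Filter Topology Polynomial NumberField IsDedekindDomain

namespace Pool.Agent.T6.H9.TP

open Pool.Agent.T6.H9.MV Pool.Agent.T6.H9.HY Pool.Agent.T6.H9.TensorL Pool.Agent.H341R2.Sharp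

lemma exists_prod_zpow_bound' {J : Type*} (S : Finset J) (n : J → ℤ) {Λ : ℝ} (hΛ : 1 ≤ Λ) :
    ∃ C : ℝ, 0 ≤ C ∧
      ∀ (z : J → ℂ) (x : ℝ), 0 ≤ x → (∀ k ∈ S, Λ⁻¹ ≤ ‖z k‖ ∧ ‖z k‖ ≤ Λ ∧ ‖z k - 1‖ ≤ x) →
        ‖∏ k ∈ S, z k ^ n k - 1‖ ≤ C * x := by
  classical
  induction S using Finset.induction_on with
  | empty => exact ⟨0, le_rfl, fun z x hx h => by simp⟩
  | insert k s hk ih =>
    obtain ⟨C, hC0, hC⟩ := ih
    refine ⟨C * Λ ^ (n k).natAbs + (n k).natAbs * Λ ^ (2 * (n k).natAbs), by positivity,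
      fun z x hx h => ?_⟩
    rw [Finset.prod_insert hk]
    have h1 : z k ^ n k * ∏ j ∈ s, z j ^ n j - 1 =
        (∏ j ∈ s, z j ^ n j - 1) * z k ^ n k + (z k ^ n k - 1) := by ring
    rw [h1]
    refine (norm_add_le _ _).trans ?_
    rw [norm_mul]
    have hk' := h k (Finset.mem_insert_self _ _)
    have h2 := hC z x hx fun j hj => h j (Finset.mem_insert_of_mem hj)
    have h3 := norm_zpow_le hk'.1 hk'.2.1 hΛ (n k)
    have h4 := norm_zpow_sub_one hΛ hk'.1 hk'.2.1 hk'.2.2 (n k)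
    have h5 : ‖∏ j ∈ s, z j ^ n j - 1‖ * ‖z k ^ n k‖ ≤ (C * x) * Λ ^ (n k).natAbs :=
      mul_le_mul h2 h3 (norm_nonneg _) (by positivity)
    linarith

section

variable {K : Type} [Field K] [NumberField K] {m r : ℕ} {d : Fin r → ℕ}

lemma diff_ZT {θ : ℝ} {A : ∀ k : Fin r, HeightOneSpectrum (𝓞 K) → Fin (d k) → ℂ}
    (hA : ∀ k v i, ‖A k v i‖ ≤ (qv v : ℝ) ^ θ) (n : Fin r → ℤ) (v : HeightOneSpectrum (𝓞 K))
    {x : Fin r → ℂ} (hx : x ∈ Om r (1 / 2 + θ)) :
    DifferentiableAt ℂ (fun s => ZT A n s v) x := by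
  have hs : ∀ k, cT 1 θ ≤ (x k).re := fun k => by
    have := hx k
    unfold cT
    push_cast
    linarith
  have hne : ∀ k l i j, 1 - xT A x v k i * xT A x v l j ≠ 0 := by
    intro k l i j h
    have h1 := xx_lt (m := 1) hA hs (by unfold cT; exact le_rfl) v k l i j
    have h2 : xT A x v k i * xT A x v l j = 1 := (sub_eq_zero.1 h).symm
    rw [h2, norm_one] at h1
    have := rhoH_lt_one 1
    linarith
  have hdx : ∀ k l i j, DifferentiableAt ℂ (fun s => 1 - xT A s v k i * xT A s v l j) x :=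
    fun k l i j => ((diff_xT A v k i x).mul (diff_xT A v l j x)).const_sub 1
  have hlam : ∀ k, DifferentiableAt ℂ (fun s => lam2 (xT A s v k) 1) x := by
    intro k
    unfold lam2
    refine diff_prod _ fun p _ => ?_
    simp only [mul_one]
    exact hdx k k p.1 p.2
  have hlam0 : ∀ k, lam2 (xT A x v k) 1 ≠ 0 := by
    intro k
    unfold lam2
    refine Finset.prod_ne_zero_iff.2 fun p _ => ?_
    rw [mul_one]
    exact hne k k p.1 p.2
  have hsym : ∀ k, DifferentiableAt ℂ (fun s => sym2 (xT A s v k) 1) x := by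
    intro k
    unfold sym2
    refine diff_prod _ fun p _ => ?_
    simp only [mul_one]
    exact hdx k k p.1 p.2
  have hsym0 : ∀ k, sym2 (xT A x v k) 1 ≠ 0 := by
    intro k
    unfold sym2
    refine Finset.prod_ne_zero_iff.2 fun p _ => ?_
    rw [mul_one]
    exact hne k k p.1 p.2
  have hrs : ∀ k l, DifferentiableAt ℂ (fun s => rs (xT A s v k) (xT A s v l) 1) x := by
    intro k l
    unfold rs
    refine diff_prod _ fun i _ => diff_prod _ fun j _ => ?_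
    simp only [mul_one]
    exact hdx k l i j
  have hrs0 : ∀ k l, rs (xT A x v k) (xT A x v l) 1 ≠ 0 := by
    intro k l
    unfold rs
    refine Finset.prod_ne_zero_iff.2 fun i _ => Finset.prod_ne_zero_iff.2 fun j _ => ?_
    rw [mul_one]
    exact hne k l i j
  unfold ZT
  refine DifferentiableAt.mul (diff_prod _ fun k _ => ?_) (diff_prod _ fun p _ => ?_)
  · exact ((hlam k).zpow (Or.inl (hlam0 k))).mul ((hsym k).zpow (Or.inl (hsym0 k)))
  · exact (hrs p.1 p.2).zpow (Or.inl (hrs0 p.1 p.2))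

theorem ZT_inv_bound {θ : ℝ} {A : ∀ k : Fin r, HeightOneSpectrum (𝓞 K) → Fin (d k) → ℂ}
    (hA : ∀ k v i, ‖A k v i‖ ≤ (qv v : ℝ) ^ θ) (n : Fin r → ℤ) {δ : ℝ} (hδ : 0 < δ) :
    ∃ β : HeightOneSpectrum (𝓞 K) → ℝ, Summable β ∧
      ∀ s : Fin r → ℂ, (∀ k, 1 / 2 + θ + δ < (s k).re) → ∀ v, ‖(ZT A n s v)⁻¹ - 1‖ ≤ β v := by
  set σ : ℝ := 1 / 2 + θ + δ with hσ
  obtain ⟨C, hC, h⟩ := exists_prod_zpow_bound' (prs (RL d))
    (fun p => -ex (fun a => nT n (eL d a)) p) (one_le_Lam (rhoH 1))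
  have hσ1 : θ + 1 / (((1 : ℕ) : ℝ) + 1) ≤ σ := by
    rw [hσ]
    push_cast
    linarith
  refine ⟨fun v => C * (qv v : ℝ) ^ (-(1 + 2 * δ)),
    (summable_qv (K := K) (x := 1 + 2 * δ) (by linarith)).mul_left C, fun s hs v => ?_⟩
  have hq0 := qv_pos v
  have hs' : ∀ k, σ ≤ (s k).re := fun k => (hs k).le
  rw [ZT_eq (m := 1) hA hs' hσ1, ← Finset.prod_inv_distrib]
  have h1 := h (fun p => 1 - (qv v : ℂ) * (tT A s v p.1 * tT A s v p.2))
    ((qv v : ℝ) ^ (-(1 + 2 * δ))) (by positivity) (fun p _ => by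
      obtain ⟨b1, b2⟩ := one_sub_Lam (m := 1) hA hs' hσ1 v p.1 p.2
      refine ⟨b1, b2, ?_⟩
      have h2 : (1 : ℂ) - (qv v : ℂ) * (tT A s v p.1 * tT A s v p.2) - 1 =
          -(xL (xT A s v) (eL d p.1) * xL (xT A s v) (eL d p.2)) := by
        rw [q_tt]
        ring
      rw [h2, norm_neg, norm_mul]
      have h3 : ∀ a : IL d, ‖xL (xT A s v) a‖ ≤ (qv v : ℝ) ^ (θ - σ) := by
        intro a
        exact xT_norm v (hA _ v _) (hs' _)
      calc ‖xL (xT A s v) (eL d p.1)‖ * ‖xL (xT A s v) (eL d p.2)‖ ≤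
          (qv v : ℝ) ^ (θ - σ) * (qv v : ℝ) ^ (θ - σ) :=
            mul_le_mul (h3 _) (h3 _) (norm_nonneg _) (by positivity)
        _ = (qv v : ℝ) ^ (-(1 + 2 * δ)) := by
            rw [← Real.rpow_add hq0]
            congr 1
            rw [hσ]
            ring)
  have h4 : ∏ p ∈ prs (RL d), ((1 - (qv v : ℂ) * (tT A s v p.1 * tT A s v p.2)) ^
      ex (fun a => nT n (eL d a)) p)⁻¹ =
      ∏ p ∈ prs (RL d), (1 - (qv v : ℂ) * (tT A s v p.1 * tT A s v p.2)) ^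
      (-ex (fun a => nT n (eL d a)) p) :=
    Finset.prod_congr rfl fun p _ => (zpow_neg _ _).symm
  rw [h4]
  exact h1

theorem differentiableOn_polT {θ : ℝ}
    {A : ∀ k : Fin r, HeightOneSpectrum (𝓞 K) → Fin (d k) → ℂ}
    (hA : ∀ k v i, ‖A k v i‖ ≤ (qv v : ℝ) ^ θ) (n : Fin r → ℤ) :
    DifferentiableOn ℂ (polT A n) (Om r (1 / 2 + θ)) := by
  intro x hx
  obtain ⟨δ, hδ, hxδ⟩ := exists_delta hx
  obtain ⟨β, hβ, hb⟩ := ZT_inv_bound (K := K) hA n hδ
  have h1 : TendstoUniformlyOn (fun (D : Finset (HeightOneSpectrum (𝓞 K))) s =>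
      ∏ v ∈ D, (ZT A n s v)⁻¹) (fun s => ∏' v, (ZT A n s v)⁻¹) atTop (Om r (1 / 2 + θ + δ)) :=
    tendstoUniformlyOn_prod hβ fun v s hs => hb s hs v
  have h1' : TendstoUniformlyOn (fun (D : Finset (HeightOneSpectrum (𝓞 K))) s =>
      ∏ v ∈ D, (ZT A n s v)⁻¹) (polT A n) atTop (Om r (1 / 2 + θ + δ)) := by
    refine h1.congr_right fun s hs => ?_
    exact (hasProd_ZT hA n (s := s) (fun k => by linarith [hs k])).tprod_eq
  have h2 := differentiableOn_of_tendstoUniformlyOn (U := Om r (1 / 2 + θ + δ))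
    (V := Om r (1 / 2 + θ + δ + δ)) hδ (isOpen_Om _ _) (fun y hy => ball_Om hy) (fun D => by
      intro y hy
      have hy' : y ∈ Om r (1 / 2 + θ) := fun k => by linarith [hy k]
      have hne : ∀ v, ZT A n y v ≠ 0 := fun v => ZT_ne_zero (m := 1) hA (σ := 1 / 2 + θ)
        (fun k => (hy' k).le) (by push_cast; linarith) n v
      exact (diff_prod D fun v _ => (diff_ZT hA n v hy').inv (hne v)).differentiableWithinAt) h1'
  exact ((h2 x hxδ).differentiableAt ((isOpen_Om _ _).mem_nhds hxδ)).differentiableWithinAt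

end

end Pool.Agent.T6.H9.TP
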