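import Pool.Agent.T6.H9.TP.Loc

/-!
# Assembly for tensor products

Owner helper9.
-/

set_option autoImplicit false
set_option linter.unusedSectionVars false
set_option linter.style.haveILetI false
set_option linter.unusedVariables false

open Filter Topology Polynomial NumberField IsDedekindDomain

namespace Pool.Agent.T6.H9.TP

open Pool.Agent.T6.H9.MV Pool.Agent.T6.H9.HY Pool.Agent.T6.H9.TensorL Pool.Agent.H341R2.Sharp

section

variable {K : Type} [Field K] [NumberField K] {m r : ℕ} {d : Fin r → ℕ}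

/-- the edge of the region -/
noncomputable def cT (m : ℕ) (θ : ℝ) : ℝ := θ + 1 / ((m : ℝ) + 1)

/-! ### holomorphy -/

lemma locT_ne_zero {e : ℕ} (A : HeightOneSpectrum (𝓞 K) → Fin e → ℂ)
    (v : HeightOneSpectrum (𝓞 K)) (t : Fin m → kv v) (s : ℂ) : locT A v t s ≠ 0 := by
  unfold locT
  split_ifs
  · exact one_ne_zero
  · exact Finset.prod_ne_zero_iff.2 fun i _ => Complex.exp_ne_zero _
  · exact one_ne_zero

lemma kapT_lt_one {θ : ℝ} {a : ℂ} (v : HeightOneSpectrum (𝓞 K)) (ha : ‖a‖ ≤ (qv v : ℝ) ^ θ) {s : ℂ}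
    (hs : cT m θ ≤ s.re) : √(qv v : ℝ) * ‖a * (qv v : ℂ) ^ (-s - 1 / 2)‖ < 1 :=
  (((kapT v ha hs).trans (kapT_rho (m := m) v (by unfold cT; exact le_rfl))).trans
    (rho_sq_le m)).trans_lt (rhoH_lt_one m)

lemma diff_locT (hm : Odd m) {θ : ℝ} {e : ℕ} {A : HeightOneSpectrum (𝓞 K) → Fin e → ℂ}
    (hA : ∀ v i, ‖A v i‖ ≤ (qv v : ℝ) ^ θ)
    (v : HeightOneSpectrum (𝓞 K)) (t : Fin m → kv v) (k : Fin r)
    {x : Fin r → ℂ} (hx : cT m θ < (x k).re) :
    DifferentiableAt ℂ (fun s : Fin r → ℂ => locT A v t (s k)) x := by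
  unfold locT
  split_ifs with h2 h3
  · exact differentiableAt_const _
  · refine diff_prod _ fun i _ => ?_
    have h1 : DifferentiableAt ℂ (fun s : Fin r → ℂ => A v i * (qv v : ℂ) ^ (-(s k) - 1 / 2)) x :=
      (diff_cpow v _ (by fun_prop)).const_mul _
    have h4 : DifferentiableAt ℂ (EF (mkP m t)) (A v i * (qv v : ℂ) ^ (-(x k) - 1 / 2)) := by
      refine EF_diff (ringChar_kv h2) (by rw [mkP_natDegree]; exact hm) ?_
      rw [card_kv']
      exact kapT_lt_one v (hA v i) hx.le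
    exact DifferentiableAt.comp (g := EF (mkP m t)) x h4 h1
  · exact differentiableAt_const _

lemma diff_xT (A : ∀ k : Fin r, HeightOneSpectrum (𝓞 K) → Fin (d k) → ℂ)
    (v : HeightOneSpectrum (𝓞 K)) (k : Fin r) (i : Fin (d k)) (x : Fin r → ℂ) :
    DifferentiableAt ℂ (fun s => xT A s v k i) x := by
  unfold xT
  exact (diff_cpow v _ (by fun_prop)).const_mul _

/-- the correction factors are holomorphic -/
lemma diff_hlocT (hm : Odd m) {θ : ℝ} {A : ∀ k : Fin r, HeightOneSpectrum (𝓞 K) → Fin (d k) → ℂ}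
    (hA : ∀ k v i, ‖A k v i‖ ≤ (qv v : ℝ) ^ θ) (n : Fin r → ℤ) (v : HeightOneSpectrum (𝓞 K))
    {x : Fin r → ℂ} (hx : x ∈ Om r (cT m θ)) :
    DifferentiableAt ℂ (fun s => hlocT m A n s v) x := by
  have h1 : DifferentiableAt ℂ (fun s => fmean (glT m A n s v)) x := by
    have h2 : (fun s : Fin r → ℂ => fmean (glT m A n s v)) =
        fun s => (∑ t, glT m A n s v t) / (Fintype.card (Fin m → kv v) : ℂ) := by
      funext s
      rw [fmean_eq]
    rw [h2]
    refine diff_div (DifferentiableAt.fun_sum fun t _ => ?_) _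
    unfold glT
    refine diff_prod _ fun k _ => ?_
    exact (diff_locT hm (hA k) v t k (hx k)).zpow (Or.inl (locT_ne_zero (A k) v t _))
  have hs : ∀ k, cT m θ ≤ (x k).re := fun k => (hx k).le
  have hne : ∀ k l i j, 1 - xT A x v k i * xT A x v l j ≠ 0 := by
    intro k l i j h
    have h1 := xx_lt (m := m) hA hs (by unfold cT; exact le_rfl) v k l i j
    have h2 : xT A x v k i * xT A x v l j = 1 := (sub_eq_zero.1 h).symm
    rw [h2, norm_one] at h1
    have := rhoH_lt_one m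
    linarith
  have hdx : ∀ k l i j, DifferentiableAt ℂ (fun s => 1 - xT A s v k i * xT A s v l j) x :=
    fun k l i j => ((diff_xT A v k i x).mul (diff_xT A v l j x)).const_sub 1
  have hlam : ∀ k, DifferentiableAt ℂ (fun s => lam2 (xT A s v k) 1) x := by
    intro k
    unfold lam2
    refine diff_prod _ fun p _ => ?_
    simp only [mul_one]
    exact hdx k k p.1 p.2
  have hlam0 : ∀ k, lam2 (xT A x v k) 1 ≠ 0 := by
    intro k
    unfold lam2
    refine Finset.prod_ne_zero_iff.2 fun p _ => ?_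
    rw [mul_one]
    exact hne k k p.1 p.2
  have hsym : ∀ k, DifferentiableAt ℂ (fun s => sym2 (xT A s v k) 1) x := by
    intro k
    unfold sym2
    refine diff_prod _ fun p _ => ?_
    simp only [mul_one]
    exact hdx k k p.1 p.2
  have hsym0 : ∀ k, sym2 (xT A x v k) 1 ≠ 0 := by
    intro k
    unfold sym2
    refine Finset.prod_ne_zero_iff.2 fun p _ => ?_
    rw [mul_one]
    exact hne k k p.1 p.2
  have hrs : ∀ k l, DifferentiableAt ℂ (fun s => rs (xT A s v k) (xT A s v l) 1) x := by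
    intro k l
    unfold rs
    refine diff_prod _ fun i _ => diff_prod _ fun j _ => ?_
    simp only [mul_one]
    exact hdx k l i j
  have hrs0 : ∀ k l, rs (xT A x v k) (xT A x v l) 1 ≠ 0 := by
    intro k l
    unfold rs
    refine Finset.prod_ne_zero_iff.2 fun i _ => Finset.prod_ne_zero_iff.2 fun j _ => ?_
    rw [mul_one]
    exact hne k l i j
  have h2 : DifferentiableAt ℂ (fun s => ZT A n s v) x := by
    unfold ZT
    refine DifferentiableAt.mul (diff_prod _ fun k _ => ?_) (diff_prod _ fun p _ => ?_)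
    · exact ((hlam k).zpow (Or.inl (hlam0 k))).mul ((hsym k).zpow (Or.inl (hsym0 k)))
    · exact (hrs p.1 p.2).zpow (Or.inl (hrs0 p.1 p.2))
  unfold hlocT
  exact h1.mul h2

/-- the correction function -/
noncomputable def HfT (m : ℕ) (A : ∀ k : Fin r, HeightOneSpectrum (𝓞 K) → Fin (d k) → ℂ)
    (n : Fin r → ℤ) (s : Fin r → ℂ) : ℂ :=
  ∏' v : HeightOneSpectrum (𝓞 K), hlocT m A n s v

theorem differentiableOn_HfT (hm : Odd m) {θ : ℝ}
    {A : ∀ k : Fin r, HeightOneSpectrum (𝓞 K) → Fin (d k) → ℂ}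
    (hA : ∀ k v i, ‖A k v i‖ ≤ (qv v : ℝ) ^ θ) (n : Fin r → ℤ) :
    DifferentiableOn ℂ (HfT m A n) (Om r (cT m θ)) := by
  intro x hx
  obtain ⟨δ, hδ, hxδ⟩ := exists_delta hx
  obtain ⟨β, hβ, hb⟩ := hlocT_bound (K := K) hm θ n hA hδ
  have h1 : TendstoUniformlyOn (fun (D : Finset (HeightOneSpectrum (𝓞 K))) s =>
      ∏ v ∈ D, hlocT m A n s v) (HfT m A n) atTop (Om r (cT m θ + δ)) :=
    tendstoUniformlyOn_prod hβ fun v s hs => hb s hs v
  have h2 := differentiableOn_of_tendstoUniformlyOn (U := Om r (cT m θ + δ))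
    (V := Om r (cT m θ + δ + δ)) hδ (isOpen_Om _ _) (fun y hy => ball_Om hy) (fun D => by
      intro y hy
      have hy' : y ∈ Om r (cT m θ) := fun k => by linarith [hy k]
      exact (diff_prod D fun v _ => diff_hlocT hm hA n v hy').differentiableWithinAt) h1
  exact ((h2 x hxδ).differentiableAt ((isOpen_Om _ _).mem_nhds hxδ)).differentiableWithinAt

/-! ### the exponential form -/

lemma prod_EF {v : HeightOneSpectrum (𝓞 K)} (h2 : (2 : 𝓞 K) ∉ v.asIdeal) (hm : Odd m)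
    (t : Fin m → kv v) {e : ℕ} (a : Fin e → ℂ) (u : ℂ)
    (hu : ∀ i, √(qv v : ℝ) * ‖a i * u‖ < 1) :
    ∏ i, EF (mkP m t) (a i * u) = Complex.exp (∑' j : ℕ, (∑ i, a i ^ (j + 1)) *
      (-(T (mkP m t) (j + 1) : ℂ)) * u ^ (j + 1) / ((j : ℂ) + 1)) := by
  have hF := ringChar_kv h2
  have hodd : Odd (mkP m t).natDegree := by rw [mkP_natDegree]; exact hm
  have hd : (1 : ℝ) ≤ (mkP m t).natDegree := by exact_mod_cast hodd.pos
  have hsum : ∀ i ∈ (Finset.univ : Finset (Fin e)), Summable fun j : ℕ =>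
      -(T (mkP m t) (j + 1) : ℂ) * (a i * u) ^ (j + 1) / ((j : ℂ) + 1) := by
    intro i _
    have h1 := LS_summable (t := fun m' => -(T (mkP m t) m' : ℂ)) (C := (mkP m t).natDegree - 1)
      (s := √(Fintype.card (kv v) : ℝ)) (Real.sqrt_nonneg _) (by linarith)
      (fun m' hm' => by rw [norm_neg]; exact T_le hF hodd hm') (u := a i * u) (by
        rw [card_kv']; exact hu i)
    exact h1
  unfold EF LS
  rw [← Complex.exp_sum, ← Summable.tsum_finsetSum hsum]
  congr 1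
  refine tsum_congr fun j => ?_
  have h3 : ∀ i : Fin e, -(T (mkP m t) (j + 1) : ℂ) * (a i * u) ^ (j + 1) / ((j : ℂ) + 1) =
      a i ^ (j + 1) * (-(T (mkP m t) (j + 1) : ℂ) * u ^ (j + 1) / ((j : ℂ) + 1)) := by
    intro i
    rw [mul_pow]
    ring
  simp only [h3]
  rw [← Finset.sum_mul]
  ring

/-! ### real points -/

lemma locT_real (hm : Odd m) {θ : ℝ} {e : ℕ} {A : HeightOneSpectrum (𝓞 K) → Fin e → ℂ}
    (hA : ∀ v i, ‖A v i‖ ≤ (qv v : ℝ) ^ θ)
    (hreal : ∀ v j, (∑ i, A v i ^ (j + 1)).im = 0)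
    (v : HeightOneSpectrum (𝓞 K)) (t : Fin m → kv v) {s : ℂ} (hs : cT m θ ≤ s.re)
    (hs0 : s.im = 0) : ∃ y : ℝ, 0 < y ∧ locT A v t s = y := by
  unfold locT
  split_ifs with h2 h3
  · exact ⟨1, one_pos, by simp⟩
  · rw [prod_EF h2 hm t (A v) ((qv v : ℂ) ^ (-s - 1 / 2)) fun i => kapT_lt_one v (hA v i) hs]
    have h0 : (0 : ℝ) ≤ qv v := (qv_pos v).le
    have h1 : (qv v : ℂ) ^ (-s - 1 / 2) = (((qv v : ℝ) ^ (-s.re - 1 / 2) : ℝ) : ℂ) := by
      rw [Complex.ofReal_cpow h0]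
      have h1 : ((-s.re - 1 / 2 : ℝ) : ℂ) = -s - 1 / 2 := by
        apply Complex.ext
        · simp
        · simp [hs0]
      rw [h1]
      push_cast
      rfl
    have h4 : ∀ j, (∑ i, A v i ^ (j + 1)) = (((∑ i, A v i ^ (j + 1)).re : ℝ) : ℂ) := by
      intro j
      apply Complex.ext
      · simp
      · rw [hreal v j]
        simp
    refine ⟨Real.exp (∑' j : ℕ, (∑ i, A v i ^ (j + 1)).re * (-(T (mkP m t) (j + 1) : ℝ)) *
      ((qv v : ℝ) ^ (-s.re - 1 / 2)) ^ (j + 1) / ((j : ℝ) + 1)), Real.exp_pos _, ?_⟩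
    rw [h1]
    rw [Complex.ofReal_exp, Complex.ofReal_tsum]
    congr 1
    refine tsum_congr fun j => ?_
    rw [h4 j]
    push_cast
    simp
  · exact ⟨1, one_pos, by simp⟩

lemma hlocT_ne_zero (hm : Odd m) {θ : ℝ}
    {A : ∀ k : Fin r, HeightOneSpectrum (𝓞 K) → Fin (d k) → ℂ}
    (hA : ∀ k v i, ‖A k v i‖ ≤ (qv v : ℝ) ^ θ)
    (hreal : ∀ k v j, (∑ i, A k v i ^ (j + 1)).im = 0)
    (n : Fin r → ℤ) (v : HeightOneSpectrum (𝓞 K)) {s : Fin r → ℂ}
    (hs : s ∈ Om r (cT m θ)) (hs0 : ∀ k, (s k).im = 0) : hlocT m A n s v ≠ 0 := by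
  classical
  have h1 : ∀ t : Fin m → kv v, ∃ y : ℝ, 0 < y ∧ glT m A n s v t = y := by
    intro t
    choose y hy0 hy using fun k => locT_real hm (hA k) (hreal k) v t (hs k).le (hs0 k)
    refine ⟨∏ k, y k ^ n k, Finset.prod_pos fun k _ => zpow_pos (hy0 k) _, ?_⟩
    unfold glT
    push_cast
    refine Finset.prod_congr rfl fun k _ => ?_
    rw [hy k]
  choose y hy0 hy using h1
  have hc : (0 : ℝ) < Fintype.card (Fin m → kv v) := by exact_mod_cast Fintype.card_pos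
  have h2 : fmean (glT m A n s v) =
      (((∑ t, y t) / (Fintype.card (Fin m → kv v) : ℝ) : ℝ) : ℂ) := by
    rw [fmean_eq]
    push_cast
    simp only [hy]
  have h3 : 0 < (∑ t, y t) / (Fintype.card (Fin m → kv v) : ℝ) :=
    div_pos (Finset.sum_pos (fun t _ => hy0 t) Finset.univ_nonempty) hc
  unfold hlocT
  refine mul_ne_zero ?_ (ZT_ne_zero (m := m) hA (σ := cT m θ) (fun k => (hs k).le)
    (by unfold cT; exact le_rfl) n v)
  rw [h2]
  exact_mod_cast h3.ne'

theorem HfT_ne_zero (hm : Odd m) {θ : ℝ}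
    {A : ∀ k : Fin r, HeightOneSpectrum (𝓞 K) → Fin (d k) → ℂ}
    (hA : ∀ k v i, ‖A k v i‖ ≤ (qv v : ℝ) ^ θ)
    (hreal : ∀ k v j, (∑ i, A k v i ^ (j + 1)).im = 0) (n : Fin r → ℤ) {s : Fin r → ℂ}
    (hs : s ∈ Om r (cT m θ)) (hs0 : ∀ k, (s k).im = 0) : HfT m A n s ≠ 0 := by
  obtain ⟨δ, hδ, hxδ⟩ := exists_delta hs
  obtain ⟨β, hβ, hb⟩ := hlocT_bound (K := K) hm θ n hA hδ
  exact tprod_ne_zero' hβ (fun v => hb s (fun k => by
      have := hxδ k
      unfold cT at this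
      linarith) v)
    fun v => hlocT_ne_zero hm hA hreal n v hs hs0

end

end Pool.Agent.T6.H9.TP
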