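import Pool.Agent.T6.H9.HY.Defs

/-!
# Definitions for the averages of the L-functions of tensor product lifts

Owner helper9.
-/

set_option autoImplicit false

open NumberField IsDedekindDomain Polynomial

namespace Pool.Agent.T6.H9.TensorL

/-- `∏_{i<j} (1 - α_i α_j z)` -/
noncomputable def lam2 {a : ℕ} (α : Fin a → ℂ) (z : ℂ) : ℂ :=
  ∏ p ∈ (Finset.univ : Finset (Fin a × Fin a)).filter (fun p => p.1 < p.2),
    (1 - α p.1 * α p.2 * z)

/-- `∏_{i≤j} (1 - α_i α_j z)` -/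
noncomputable def sym2 {a : ℕ} (α : Fin a → ℂ) (z : ℂ) : ℂ :=
  ∏ p ∈ (Finset.univ : Finset (Fin a × Fin a)).filter (fun p => p.1 ≤ p.2),
    (1 - α p.1 * α p.2 * z)

/-- `∏_{i,j} (1 - α_i β_j z)` -/
noncomputable def rs {a b : ℕ} (α : Fin a → ℂ) (β : Fin b → ℂ) (z : ℂ) : ℂ :=
  ∏ i, ∏ j, (1 - α i * β j * z)

variable {K : Type} [Field K] [NumberField K]

/-- The exterior square L-function `L(s, Λ² π)` of a representation `π` of `GL(d)` with Satake
parameters `A v 0, …, A v (d - 1)` at `v`. -/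
noncomputable def Lext {d : ℕ} (A : HeightOneSpectrum (𝓞 K) → Fin d → ℂ) (s : ℂ) : ℂ :=
  ∏' v : HeightOneSpectrum (𝓞 K), (lam2 (A v) ((Ideal.absNorm v.asIdeal : ℂ) ^ (-s)))⁻¹

/-- The symmetric square L-function `L(s, Sym² π)`. -/
noncomputable def Lsym {d : ℕ} (A : HeightOneSpectrum (𝓞 K) → Fin d → ℂ) (s : ℂ) : ℂ :=
  ∏' v : HeightOneSpectrum (𝓞 K), (sym2 (A v) ((Ideal.absNorm v.asIdeal : ℂ) ^ (-s)))⁻¹

/-- The Rankin–Selberg L-function `L(s, π × π')`. -/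
noncomputable def LRS {d e : ℕ} (A : HeightOneSpectrum (𝓞 K) → Fin d → ℂ)
    (B : HeightOneSpectrum (𝓞 K) → Fin e → ℂ) (s : ℂ) : ℂ :=
  ∏' v : HeightOneSpectrum (𝓞 K), (rs (A v) (B v) ((Ideal.absNorm v.asIdeal : ℂ) ^ (-s)))⁻¹

open Classical in
/-- The Euler factor at `v` of the L-function `L(s, π × C)` (unitary normalisation, edge
`Re s = 1` if `π` is tempered) of the lifting of `(π, C)` under the tensor product
`GL(d) × GSp(2g) → GL(2gd)`, where `C` is the curve `y² = f(x)`, `f` monic of degree `2g + 1`.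
If `v ∤ 2` and `f` is separable modulo `v`, the normalised Frobenius of `C` at `v` has the traces
of powers `b_j = (q^j - pts f v j) / q^{j/2}`, `q = N v`, and the Euler factor is
`exp (∑_{j ≥ 1} (∑_i (A v i)^j) b_j q^{-js} / j)`; at the other `v` the Euler factor is omitted. -/
noncomputable def factor (f : (𝓞 K)[X]) {d : ℕ} (A : HeightOneSpectrum (𝓞 K) → Fin d → ℂ)
    (v : HeightOneSpectrum (𝓞 K)) (s : ℂ) : ℂ :=
  if (2 : 𝓞 K) ∈ v.asIdeal ∨ ¬ (f.map (Ideal.Quotient.mk v.asIdeal)).Separable then 1 else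
    Complex.exp (∑' j : ℕ, (∑ i, A v i ^ (j + 1)) *
      (((Ideal.absNorm v.asIdeal : ℤ) ^ (j + 1) - (HypL.pts f v (j + 1) : ℤ) : ℤ) : ℂ) *
        ((Ideal.absNorm v.asIdeal : ℂ) ^ (-s - 1 / 2)) ^ (j + 1) / ((j : ℂ) + 1))

/-- The L-function `L(s, π × C)`. -/
noncomputable def Lfun (f : (𝓞 K)[X]) {d : ℕ} (A : HeightOneSpectrum (𝓞 K) → Fin d → ℂ) (s : ℂ) :
    ℂ := ∏' v : HeightOneSpectrum (𝓞 K), factor f A v s

end Pool.Agent.T6.H9.TensorL
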