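import Pool.Agent.T6.H9.HY.AsmH
import Pool.Agent.T6.H9.TP.Defs

/-!
# Pairs of eigenvalues of a direct sum

Owner helper9.
-/

set_option autoImplicit false
set_option linter.unusedSectionVars false
set_option linter.unusedVariables false

open Finset

namespace Pool.Agent.T6.H9.TP

open Pool.Agent.T6.H9.MV Pool.Agent.T6.H9.TensorL

lemma half_add (n : ℤ) : n * (n + 1) / 2 + n * (n - 1) / 2 = n * n := by
  have h1 : (2 : ℤ) ∣ n * (n + 1) := Int.even_mul_succ_self n |>.two_dvd
  have h2 : (2 : ℤ) ∣ n * (n - 1) := Int.even_mul_pred_self n |>.two_dvd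
  obtain ⟨a, ha⟩ := h1
  obtain ⟨b, hb⟩ := h2
  rw [ha, hb, Int.mul_ediv_cancel_left _ (by norm_num), Int.mul_ediv_cancel_left _ (by norm_num)]
  have : 2 * (a + b) = 2 * (n * n) := by
    rw [mul_add, ← ha, ← hb]
    ring
  linarith

section

variable {r : ℕ} {d : Fin r → ℕ}

/-- the index set of the eigenvalues of the direct sum -/
abbrev IL (d : Fin r → ℕ) : Type := Σₗ k : Fin r, Fin (d k)

/-- the number of eigenvalues -/
abbrev RL (d : Fin r → ℕ) : ℕ := Fintype.card (IL d)

/-- numbering of the eigenvalues -/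
noncomputable def eL (d : Fin r → ℕ) : Fin (RL d) ≃o IL d := Fintype.orderIsoFinOfCardEq (IL d) rfl

/-- the representation to which an eigenvalue belongs -/
def fL (a : IL d) : Fin r := (ofLex a).1

/-- the eigenvalue with given index -/
def xL (x : ∀ k, Fin (d k) → ℂ) (a : IL d) : ℂ := x (ofLex a).1 (ofLex a).2

lemma prod_IL (f : IL d → ℂ) : ∏ a, f a = ∏ k, ∏ i, f (toLex ⟨k, i⟩) := by
  rw [← Fintype.prod_sigma (fun a : Σ k : Fin r, Fin (d k) => f (toLex a))]
  exact (Fintype.prod_equiv toLex _ _ fun _ => rfl).symm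

lemma le_IL (k l : Fin r) (i : Fin (d k)) (j : Fin (d l)) :
    (toLex (⟨k, i⟩ : Σ k : Fin r, Fin (d k)) : IL d) ≤ toLex ⟨l, j⟩ ↔
      k < l ∨ ∃ h : k = l, h ▸ i ≤ j := Sigma.Lex.le_def

/-- one pair of representations -/
noncomputable def blk (x : ∀ k, Fin (d k) → ℂ) (n : Fin r → ℤ) (k l : Fin r) : ℂ :=
  if k = l then lam2 (x k) 1 ^ (n k * (n k + 1) / 2) * sym2 (x k) 1 ^ (n k * (n k - 1) / 2)
  else if k < l then rs (x k) (x l) 1 ^ (n k * n l) else 1

theorem lex_prod (x : ∀ k, Fin (d k) → ℂ) (n : Fin r → ℤ)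
    (hx : ∀ k i l j, 1 - x k i * x l j ≠ 0) :
    ∏ p ∈ prs (RL d), (1 - xL x (eL d p.1) * xL x (eL d p.2)) ^ ex (fun a => n (fL (eL d a))) p =
      (∏ k, (lam2 (x k) 1 ^ (n k * (n k + 1) / 2) * sym2 (x k) 1 ^ (n k * (n k - 1) / 2))) *
        ∏ p ∈ (Finset.univ : Finset (Fin r × Fin r)).filter (fun p => p.1 < p.2),
          rs (x p.1) (x p.2) 1 ^ (n p.1 * n p.2) := by
  classical
  -- the right side as a product over all pairs
  have hR : (∏ k, (lam2 (x k) 1 ^ (n k * (n k + 1) / 2) * sym2 (x k) 1 ^ (n k * (n k - 1) / 2))) *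
        ∏ p ∈ (Finset.univ : Finset (Fin r × Fin r)).filter (fun p => p.1 < p.2),
          rs (x p.1) (x p.2) 1 ^ (n p.1 * n p.2) = ∏ k, ∏ l, blk x n k l := by
    have h1 : ∀ k l, blk x n k l =
        (if k = l then lam2 (x k) 1 ^ (n k * (n k + 1) / 2) *
          sym2 (x k) 1 ^ (n k * (n k - 1) / 2) else 1) *
        (if k < l then rs (x k) (x l) 1 ^ (n k * n l) else 1) := by
      intro k l
      unfold blk
      by_cases h : k = l
      · rw [if_pos h, if_pos h, if_neg (by rw [h]; exact lt_irrefl _), mul_one]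
      · rw [if_neg h, if_neg h, one_mul]
    simp only [h1, Finset.prod_mul_distrib]
    have e1 : ∏ k, ∏ l, (if k = l then lam2 (x k) 1 ^ (n k * (n k + 1) / 2) *
          sym2 (x k) 1 ^ (n k * (n k - 1) / 2) else 1) =
        ∏ k, (lam2 (x k) 1 ^ (n k * (n k + 1) / 2) * sym2 (x k) 1 ^ (n k * (n k - 1) / 2)) := by
      refine Finset.prod_congr rfl fun k _ => ?_
      rw [Finset.prod_ite_eq]
      simp
    have e2 : ∏ k, ∏ l, (if k < l then rs (x k) (x l) 1 ^ (n k * n l) else 1) =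
        ∏ p ∈ (Finset.univ : Finset (Fin r × Fin r)).filter (fun p => p.1 < p.2),
          rs (x p.1) (x p.2) 1 ^ (n p.1 * n p.2) := by
      rw [Finset.prod_filter, Fintype.prod_prod_type]
    rw [e1, e2, Finset.prod_mul_distrib]
  rw [hR]
  -- the left side
  have hL : ∏ p ∈ prs (RL d),
      (1 - xL x (eL d p.1) * xL x (eL d p.2)) ^ ex (fun a => n (fL (eL d a))) p =
      ∏ a : IL d, ∏ b : IL d, (if a ≤ b then (1 - xL x a * xL x b) ^
        (if a = b then n (fL a) * (n (fL a) - 1) / 2 else n (fL a) * n (fL b)) else 1) := by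
    unfold prs
    rw [Finset.prod_filter, Fintype.prod_prod_type]
    refine Fintype.prod_equiv (eL d).toEquiv _ _ fun a => ?_
    refine Fintype.prod_equiv (eL d).toEquiv _ _ fun b => ?_
    have h1 : (a ≤ b) ↔ ((eL d).toEquiv a ≤ (eL d).toEquiv b) := ((eL d).le_iff_le).symm
    have h2 : (a = b) ↔ ((eL d).toEquiv a = (eL d).toEquiv b) := (eL d).toEquiv.apply_eq_iff_eq.symm
    simp only [h1]
    split_ifs with h3 h4
    · unfold ex
      rw [if_pos (h2.2 h4)]
      rfl
    · unfold ex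
      rw [if_neg (fun h => h4 (h2.1 h))]
      rfl
    · rfl
  rw [hL, prod_IL]
  refine Finset.prod_congr rfl fun k _ => ?_
  have h1 : ∀ i : Fin (d k), ∏ b : IL d, (if (toLex ⟨k, i⟩ : IL d) ≤ b then
      (1 - xL x (toLex ⟨k, i⟩) * xL x b) ^
        (if (toLex ⟨k, i⟩ : IL d) = b then n (fL (toLex (⟨k, i⟩ : Σ k : Fin r, Fin (d k)))) *
          (n (fL (toLex (⟨k, i⟩ : Σ k : Fin r, Fin (d k)))) - 1) / 2 else
          n (fL (toLex (⟨k, i⟩ : Σ k : Fin r, Fin (d k)))) * n (fL b)) else 1) =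
      ∏ l, ∏ j, (if (toLex ⟨k, i⟩ : IL d) ≤ toLex ⟨l, j⟩ then
      (1 - x k i * x l j) ^
        (if (⟨k, i⟩ : Σ k : Fin r, Fin (d k)) = ⟨l, j⟩ then n k * (n k - 1) / 2 else
          n k * n l) else 1) := by
    intro i
    rw [prod_IL]
    refine Finset.prod_congr rfl fun l _ => Finset.prod_congr rfl fun j _ => ?_
    rfl
  simp only [h1]
  rw [Finset.prod_comm]
  refine Finset.prod_congr rfl fun l _ => ?_
  unfold blk
  by_cases hkl : k = l
  · subst hkl
    rw [if_pos rfl]
    have h2 : lam2 (x k) 1 ^ (n k * (n k + 1) / 2) =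
        ∏ i, ∏ j, (if i < j then (1 - x k i * x k j) ^ (n k * (n k + 1) / 2) else 1) := by
      unfold lam2
      rw [← Finset.prod_zpow, Finset.prod_filter, Fintype.prod_prod_type]
      simp only [mul_one]
    have h3 : sym2 (x k) 1 ^ (n k * (n k - 1) / 2) =
        ∏ i, ∏ j, (if i ≤ j then (1 - x k i * x k j) ^ (n k * (n k - 1) / 2) else 1) := by
      unfold sym2
      rw [← Finset.prod_zpow, Finset.prod_filter, Fintype.prod_prod_type]
      simp only [mul_one]
    rw [h2, h3, ← Finset.prod_mul_distrib]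
    refine Finset.prod_congr rfl fun i _ => ?_
    rw [← Finset.prod_mul_distrib]
    refine Finset.prod_congr rfl fun j _ => ?_
    have h4 : ((toLex (⟨k, i⟩ : Σ k : Fin r, Fin (d k)) : IL d) ≤ toLex ⟨k, j⟩) ↔ i ≤ j := by
      rw [le_IL]
      constructor
      · rintro (h | ⟨_, h⟩)
        · exact absurd h (lt_irrefl _)
        · exact h
      · intro h
        exact Or.inr ⟨rfl, h⟩
    simp only [h4, Sigma.mk.injEq, heq_eq_eq, true_and]
    rcases lt_trichotomy i j with h5 | h5 | h5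
    · rw [if_pos h5.le, if_neg h5.ne, if_pos h5, if_pos h5.le, ← zpow_add₀ (hx k i k j), half_add]
    · rw [if_pos h5.le, if_pos h5, if_neg (by rw [h5]; exact lt_irrefl _), if_pos h5.le, one_mul]
    · rw [if_neg (not_le.2 h5), if_neg (not_lt.2 h5.le), if_neg (not_le.2 h5), one_mul]
  · rw [if_neg hkl]
    have h6 : ∀ (i : Fin (d k)) (j : Fin (d l)),
        ((⟨k, i⟩ : Σ k : Fin r, Fin (d k)) = ⟨l, j⟩) ↔ False := by
      intro i j
      constructor
      · intro h
        exact hkl (congrArg Sigma.fst h)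
      · exact False.elim
    have h4 : ∀ (i : Fin (d k)) (j : Fin (d l)),
        ((toLex (⟨k, i⟩ : Σ k : Fin r, Fin (d k)) : IL d) ≤ toLex ⟨l, j⟩) ↔ k < l := by
      intro i j
      rw [le_IL]
      constructor
      · rintro (h | ⟨h, _⟩)
        · exact h
        · exact absurd h hkl
      · exact Or.inl
    simp only [h4, h6, if_false]
    by_cases h5 : k < l
    · simp only [if_pos h5]
      unfold rs
      rw [← Finset.prod_zpow]
      refine Finset.prod_congr rfl fun i _ => ?_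
      rw [← Finset.prod_zpow]
      refine Finset.prod_congr rfl fun j _ => ?_
      rw [mul_one]
    · simp only [if_neg h5, Finset.prod_const_one]

end

end Pool.Agent.T6.H9.TP
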