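import Pool.Agent.T6.H9.TP.Asm

/-!
# The limit formula for tensor products

Owner helper9.
-/

set_option autoImplicit false
set_option linter.unusedSectionVars false
set_option linter.style.haveILetI false
set_option linter.unusedVariables false

open Filter Topology Polynomial NumberField IsDedekindDomain

namespace Pool.Agent.T6.H9.TP

open Pool.Agent.T6.H9.MV Pool.Agent.T6.H9.HY Pool.Agent.T6.H9.TensorL Pool.Agent.H341R2.Sharp

section

variable {K : Type} [Field K] [NumberField K] {m r : ℕ} {d : Fin r → ℕ}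

theorem factor_eqT (hm : Odd m) {θ : ℝ} {e : ℕ} {A : HeightOneSpectrum (𝓞 K) → Fin e → ℂ}
    (hA : ∀ v i, ‖A v i‖ ≤ (qv v : ℝ) ^ θ) (a : Fin m → 𝓞 K) (v : HeightOneSpectrum (𝓞 K))
    {s : ℂ} (hs : cT m θ ≤ s.re) :
    TensorL.factor (poly m a) A v s = locT A v (redH v a) s := by
  classical
  unfold TensorL.factor locT
  have hsep : ((poly m a).map (Ideal.Quotient.mk v.asIdeal)).Separable ↔
      Squarefree (mkP m (redH v a)) := by
    rw [poly_red]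
    exact PerfectField.separable_iff_squarefree
  by_cases h2 : (2 : 𝓞 K) ∈ v.asIdeal
  · rw [if_pos (Or.inl h2), if_pos h2]
  · rw [if_neg h2]
    by_cases h3 : Squarefree (mkP m (redH v a))
    · rw [if_pos h3, if_neg (by
        rintro (h | h)
        · exact h2 h
        · exact h (hsep.2 h3))]
      rw [prod_EF h2 hm _ (A v) ((qv v : ℂ) ^ (-s - 1 / 2)) fun i => kapT_lt_one v (hA v i) hs]
      congr 1
      refine tsum_congr fun j => ?_
      have hT := T_eq_aff (ringChar_kv h2) (mkP m (redH v a)) (j := j + 1) (Nat.succ_ne_zero j)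
      rw [← pts_eq, card_kv'] at hT
      have hT' : (T (mkP m (redH v a)) (j + 1) : ℂ) =
          (HypL.pts (poly m a) v (j + 1) : ℂ) - (qv v : ℂ) ^ (j + 1) := by
        rw [hT]
        push_cast
        ring
      rw [hT']
      push_cast
      unfold qv
      ring
    · rw [if_neg h3, if_pos (Or.inr fun h => h3 (hsep.1 h))]

/-- the Euler product of one L-function -/
lemma hasProd_LT (hm : Odd m) {θ : ℝ} {e : ℕ} {A : HeightOneSpectrum (𝓞 K) → Fin e → ℂ}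
    (hA : ∀ v i, ‖A v i‖ ≤ (qv v : ℝ) ^ θ) (a : Fin m → 𝓞 K) {s : ℂ} (hs : 1 + θ < s.re) :
    HasProd (fun v => locT A v (redH v a) s) (TensorL.Lfun (poly m a) A s) ∧
      TensorL.Lfun (poly m a) A s ≠ 0 := by
  have hc := inv_m_le (m := m) hm.pos
  obtain ⟨β, hβ, hb⟩ := glT_bound (K := K) hm (r := 1) (d := fun _ => e) (θ := θ) (fun _ => 1)
    (A := fun _ => A) (fun _ => hA) (s := fun _ => s) (fun _ => hs)
  have hb' : ∀ v, ‖locT A v (redH v a) s - 1‖ ≤ β v := by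
    intro v
    have := hb v (redH v a)
    unfold glT at this
    simpa using this
  have h1 : TensorL.Lfun (poly m a) A s = ∏' v, locT A v (redH v a) s := by
    unfold TensorL.Lfun
    exact tprod_congr fun v => factor_eqT hm hA a v (by unfold cT; linarith)
  rw [h1]
  exact ⟨(multipliable_of_bound hβ hb').hasProd,
    tprod_ne_zero' hβ hb' fun v => locT_ne_zero A v _ s⟩

lemma tprod_glT (hm : Odd m) {θ : ℝ} (n : Fin r → ℤ)
    {A : ∀ k : Fin r, HeightOneSpectrum (𝓞 K) → Fin (d k) → ℂ}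
    (hA : ∀ k v i, ‖A k v i‖ ≤ (qv v : ℝ) ^ θ) {s : Fin r → ℂ} (hs : s ∈ Om r (1 + θ))
    (a : Fin m → 𝓞 K) :
    ∏' v, glT m A n s v (redH v a) = ∏ k, TensorL.Lfun (poly m a) (A k) (s k) ^ n k := by
  have h1 : ∀ k ∈ (Finset.univ : Finset (Fin r)),
      HasProd (fun v => locT (A k) v (redH v a) (s k) ^ n k)
        (TensorL.Lfun (poly m a) (A k) (s k) ^ n k) := by
    intro k _
    obtain ⟨h2, h3⟩ := hasProd_LT hm (hA k) a (hs k)
    exact hasProd_zpow h2 h3 (n k)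
  have h2 := hasProd_prod h1
  exact h2.tprod_eq

/-! ### the polar part -/

lemma hasProd_inv_fin {P J : Type*} (S : Finset J) (c : J → P → ℂ) {b : P → ℝ} (hb : Summable b)
    (h1 : ∀ v, b v ≤ 1 / 2) (hc : ∀ j v, ‖c j v‖ ≤ b v) :
    HasProd (fun v => (∏ j ∈ S, (1 - c j v))⁻¹) (∏' v, (∏ j ∈ S, (1 - c j v))⁻¹) ∧
      ∏' v, (∏ j ∈ S, (1 - c j v))⁻¹ ≠ 0 := by
  have hne : ∀ j v, 1 - c j v ≠ 0 := by
    intro j v h
    have h2 : c j v = 1 := (sub_eq_zero.1 h).symm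
    have h3 := (hc j v).trans (h1 v)
    rw [h2, norm_one] at h3
    norm_num at h3
  have hj : ∀ j, ∀ v, ‖(1 - c j v)⁻¹ - 1‖ ≤ 2 * b v := by
    intro j v
    have h2 : (1 - c j v)⁻¹ - 1 = c j v * (1 - c j v)⁻¹ := by
      have := hne j v
      field_simp
      ring
    have h3 : (1 : ℝ) / 2 ≤ ‖1 - c j v‖ := by
      have h4 : ‖(1 : ℂ)‖ - ‖c j v‖ ≤ ‖1 - c j v‖ := norm_sub_norm_le _ _
      rw [norm_one] at h4
      have := (hc j v).trans (h1 v)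
      linarith
    have h5 : ‖(1 - c j v)⁻¹‖ ≤ 2 := by
      rw [norm_inv, inv_le_comm₀ (by linarith) (by norm_num)]
      linarith
    rw [h2, norm_mul]
    have h6 := hc j v
    calc ‖c j v‖ * ‖(1 - c j v)⁻¹‖ ≤ b v * 2 :=
          mul_le_mul h6 h5 (norm_nonneg _) ((norm_nonneg _).trans h6)
      _ = 2 * b v := by ring
  have hP : ∀ j, HasProd (fun v => (1 - c j v)⁻¹) (∏' v, (1 - c j v)⁻¹) ∧
      ∏' v, (1 - c j v)⁻¹ ≠ 0 := fun j =>
    ⟨(multipliable_of_bound (hb.mul_left 2) (hj j)).hasProd,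
      tprod_ne_zero' (hb.mul_left 2) (hj j) fun v => inv_ne_zero (hne j v)⟩
  have h2 := hasProd_prod (s := S) fun j _ => (hP j).1
  have h3 : HasProd (fun v => (∏ j ∈ S, (1 - c j v))⁻¹) (∏ j ∈ S, ∏' v, (1 - c j v)⁻¹) := by
    refine h2.congr_fun fun v => ?_
    rw [Finset.prod_inv_distrib]
  rw [h3.tprod_eq]
  exact ⟨h3, Finset.prod_ne_zero_iff.2 fun j _ => (hP j).2⟩

lemma half_bound (v : HeightOneSpectrum (𝓞 K)) {x : ℝ} (hx : 1 < x) :
    (qv v : ℝ) ^ (-x) ≤ 1 / 2 := by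
  have h1 := rpow_le_two v (x := -x) (by linarith)
  refine h1.trans ?_
  calc (2 : ℝ) ^ (-x) ≤ (2 : ℝ) ^ (-1 : ℝ) :=
        Real.rpow_le_rpow_of_exponent_le (by norm_num) (by linarith)
    _ = 1 / 2 := by rw [Real.rpow_neg_one]; norm_num

lemma prod_norm {θ : ℝ} {a b : ℂ} (v : HeightOneSpectrum (𝓞 K)) (ha : ‖a‖ ≤ (qv v : ℝ) ^ θ)
    (hb : ‖b‖ ≤ (qv v : ℝ) ^ θ) (s : ℂ) :
    ‖a * b * (qv v : ℂ) ^ (-s)‖ ≤ (qv v : ℝ) ^ (-(s.re - 2 * θ)) := by
  have h0 := qv_pos v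
  have h1 : ‖(qv v : ℂ) ^ (-s)‖ = (qv v : ℝ) ^ (-s.re) := by
    rw [Complex.norm_natCast_cpow_of_pos (Nat.pos_of_ne_zero (qv_ne_zero v))]
    congr 1
  rw [norm_mul, norm_mul, h1]
  calc ‖a‖ * ‖b‖ * (qv v : ℝ) ^ (-s.re) ≤
      (qv v : ℝ) ^ θ * (qv v : ℝ) ^ θ * (qv v : ℝ) ^ (-s.re) := by gcongr
    _ = (qv v : ℝ) ^ (-(s.re - 2 * θ)) := by
        rw [← Real.rpow_add h0, ← Real.rpow_add h0]
        congr 1
        ring

lemma hasProd_ext {θ : ℝ} {e : ℕ} {A : HeightOneSpectrum (𝓞 K) → Fin e → ℂ}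
    (hA : ∀ v i, ‖A v i‖ ≤ (qv v : ℝ) ^ θ) {s : ℂ} (hs : 1 + 2 * θ < s.re) :
    HasProd (fun v => (lam2 (A v) ((qv v : ℂ) ^ (-s)))⁻¹) (Lext A s) ∧ Lext A s ≠ 0 :=
  hasProd_inv_fin _ (fun (p : Fin e × Fin e) v => A v p.1 * A v p.2 * (qv v : ℂ) ^ (-s))
    (summable_qv (K := K) (x := s.re - 2 * θ) (by linarith))
    (fun v => half_bound v (by linarith)) fun p v => prod_norm v (hA v p.1) (hA v p.2) s

lemma hasProd_sym {θ : ℝ} {e : ℕ} {A : HeightOneSpectrum (𝓞 K) → Fin e → ℂ}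
    (hA : ∀ v i, ‖A v i‖ ≤ (qv v : ℝ) ^ θ) {s : ℂ} (hs : 1 + 2 * θ < s.re) :
    HasProd (fun v => (sym2 (A v) ((qv v : ℂ) ^ (-s)))⁻¹) (Lsym A s) ∧ Lsym A s ≠ 0 :=
  hasProd_inv_fin _ (fun (p : Fin e × Fin e) v => A v p.1 * A v p.2 * (qv v : ℂ) ^ (-s))
    (summable_qv (K := K) (x := s.re - 2 * θ) (by linarith))
    (fun v => half_bound v (by linarith)) fun p v => prod_norm v (hA v p.1) (hA v p.2) s

lemma hasProd_rs {θ : ℝ} {e e' : ℕ} {A : HeightOneSpectrum (𝓞 K) → Fin e → ℂ}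
    {B : HeightOneSpectrum (𝓞 K) → Fin e' → ℂ}
    (hA : ∀ v i, ‖A v i‖ ≤ (qv v : ℝ) ^ θ) (hB : ∀ v i, ‖B v i‖ ≤ (qv v : ℝ) ^ θ)
    {s : ℂ} (hs : 1 + 2 * θ < s.re) :
    HasProd (fun v => (rs (A v) (B v) ((qv v : ℂ) ^ (-s)))⁻¹) (LRS A B s) ∧ LRS A B s ≠ 0 := by
  have h := hasProd_inv_fin (Finset.univ : Finset (Fin e × Fin e'))
    (fun (p : Fin e × Fin e') v => A v p.1 * B v p.2 * (qv v : ℂ) ^ (-s))
    (summable_qv (K := K) (x := s.re - 2 * θ) (by linarith))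
    (fun v => half_bound v (by linarith)) fun p v => prod_norm v (hA v p.1) (hB v p.2) s
  have h1 : ∀ v : HeightOneSpectrum (𝓞 K),
      (∏ p : Fin e × Fin e', (1 - A v p.1 * B v p.2 * (qv v : ℂ) ^ (-s)))⁻¹ =
      (rs (A v) (B v) ((qv v : ℂ) ^ (-s)))⁻¹ := by
    intro v
    unfold rs
    rw [Fintype.prod_prod_type]
  simp only [h1] at h
  exact h

lemma xT_mul (A : ∀ k : Fin r, HeightOneSpectrum (𝓞 K) → Fin (d k) → ℂ) (s : Fin r → ℂ)
    (v : HeightOneSpectrum (𝓞 K)) (k l : Fin r) (i : Fin (d k)) (j : Fin (d l)) :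
    xT A s v k i * xT A s v l j * 1 = A k v i * A l v j * (qv v : ℂ) ^ (-(s k + s l)) := by
  have h0 : (qv v : ℂ) ≠ 0 := by exact_mod_cast qv_ne_zero v
  unfold xT
  have h1 : (qv v : ℂ) ^ (-(s k + s l)) = (qv v : ℂ) ^ (-(s k)) * (qv v : ℂ) ^ (-(s l)) := by
    rw [← Complex.cpow_add _ _ h0]
    congr 1
    ring
  rw [h1]
  ring

lemma ZT_inv (A : ∀ k : Fin r, HeightOneSpectrum (𝓞 K) → Fin (d k) → ℂ) (n : Fin r → ℤ)
    (s : Fin r → ℂ) (v : HeightOneSpectrum (𝓞 K)) :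
    (ZT A n s v)⁻¹ =
      (∏ k, ((lam2 (A k v) ((qv v : ℂ) ^ (-(2 * s k))))⁻¹ ^ (n k * (n k + 1) / 2) *
        (sym2 (A k v) ((qv v : ℂ) ^ (-(2 * s k))))⁻¹ ^ (n k * (n k - 1) / 2))) *
      ∏ p ∈ (Finset.univ : Finset (Fin r × Fin r)).filter (fun p => p.1 < p.2),
        (rs (A p.1 v) (A p.2 v) ((qv v : ℂ) ^ (-(s p.1 + s p.2))))⁻¹ ^ (n p.1 * n p.2) := by
  have hl : ∀ k, lam2 (xT A s v k) 1 = lam2 (A k v) ((qv v : ℂ) ^ (-(2 * s k))) := by
    intro k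
    unfold lam2
    refine Finset.prod_congr rfl fun p _ => ?_
    rw [xT_mul, two_mul]
  have hsy : ∀ k, sym2 (xT A s v k) 1 = sym2 (A k v) ((qv v : ℂ) ^ (-(2 * s k))) := by
    intro k
    unfold sym2
    refine Finset.prod_congr rfl fun p _ => ?_
    rw [xT_mul, two_mul]
  have hr : ∀ k l, rs (xT A s v k) (xT A s v l) 1 =
      rs (A k v) (A l v) ((qv v : ℂ) ^ (-(s k + s l))) := by
    intro k l
    unfold rs
    refine Finset.prod_congr rfl fun i _ => Finset.prod_congr rfl fun j _ => ?_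
    rw [xT_mul]
  unfold ZT
  rw [mul_inv, ← Finset.prod_inv_distrib, ← Finset.prod_inv_distrib]
  congr 1
  · refine Finset.prod_congr rfl fun k _ => ?_
    rw [mul_inv, ← inv_zpow, ← inv_zpow, hl, hsy]
  · refine Finset.prod_congr rfl fun p _ => ?_
    rw [← inv_zpow, hr]

/-- the polar part -/
noncomputable def polT (A : ∀ k : Fin r, HeightOneSpectrum (𝓞 K) → Fin (d k) → ℂ)
    (n : Fin r → ℤ) (s : Fin r → ℂ) : ℂ :=
  (∏ k, (Lext (A k) (2 * s k) ^ (n k * (n k + 1) / 2) *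
      Lsym (A k) (2 * s k) ^ (n k * (n k - 1) / 2))) *
    ∏ p ∈ (Finset.univ : Finset (Fin r × Fin r)).filter (fun p => p.1 < p.2),
      LRS (A p.1) (A p.2) (s p.1 + s p.2) ^ (n p.1 * n p.2)

lemma hasProd_ZT {θ : ℝ} {A : ∀ k : Fin r, HeightOneSpectrum (𝓞 K) → Fin (d k) → ℂ}
    (hA : ∀ k v i, ‖A k v i‖ ≤ (qv v : ℝ) ^ θ) (n : Fin r → ℤ)
    {s : Fin r → ℂ} (hs : s ∈ Om r (1 / 2 + θ)) :
    HasProd (fun v : HeightOneSpectrum (𝓞 K) => (ZT A n s v)⁻¹) (polT A n s) := by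
  have h2 : ∀ k, 1 + 2 * θ < (2 * s k).re := by
    intro k
    have := hs k
    simp only [Complex.mul_re, Complex.re_ofNat, Complex.im_ofNat, zero_mul, sub_zero]
    linarith
  have h3 : ∀ k l, 1 + 2 * θ < (s k + s l).re := by
    intro k l
    have := hs k
    have := hs l
    simp only [Complex.add_re]
    linarith
  have e1 : ∀ k ∈ (Finset.univ : Finset (Fin r)),
      HasProd (fun v => (lam2 (A k v) ((qv v : ℂ) ^ (-(2 * s k))))⁻¹ ^ (n k * (n k + 1) / 2) *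
        (sym2 (A k v) ((qv v : ℂ) ^ (-(2 * s k))))⁻¹ ^ (n k * (n k - 1) / 2))
        (Lext (A k) (2 * s k) ^ (n k * (n k + 1) / 2) *
          Lsym (A k) (2 * s k) ^ (n k * (n k - 1) / 2)) := by
    intro k _
    obtain ⟨a1, a2⟩ := hasProd_ext (hA k) (h2 k)
    obtain ⟨b1, b2⟩ := hasProd_sym (hA k) (h2 k)
    exact (hasProd_zpow a1 a2 _).mul (hasProd_zpow b1 b2 _)
  have e2 : ∀ p ∈ (Finset.univ : Finset (Fin r × Fin r)).filter (fun p => p.1 < p.2),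
      HasProd (fun v => (rs (A p.1 v) (A p.2 v) ((qv v : ℂ) ^ (-(s p.1 + s p.2))))⁻¹ ^
        (n p.1 * n p.2)) (LRS (A p.1) (A p.2) (s p.1 + s p.2) ^ (n p.1 * n p.2)) := by
    intro p _
    obtain ⟨a1, a2⟩ := hasProd_rs (hA p.1) (hA p.2) (h3 p.1 p.2)
    exact hasProd_zpow a1 a2 _
  have e3 := (hasProd_prod e1).mul (hasProd_prod e2)
  refine e3.congr_fun fun v => ?_
  rw [ZT_inv]

/-- the factorisation of the limit -/
lemma limit_eqT (hm : Odd m) {θ : ℝ} (n : Fin r → ℤ)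
    {A : ∀ k : Fin r, HeightOneSpectrum (𝓞 K) → Fin (d k) → ℂ}
    (hA : ∀ k v i, ‖A k v i‖ ≤ (qv v : ℝ) ^ θ)
    {s : Fin r → ℂ} (hs : s ∈ Om r (1 + θ)) :
    ∏' v : HeightOneSpectrum (𝓞 K), fmean (glT m A n s v) = polT A n s * HfT m A n s := by
  have hc := inv_m_le (m := m) hm.pos
  obtain ⟨β, hβ, hb⟩ := hlocT_bound (K := K) hm θ n hA (δ := 1 / 2) (by norm_num)
  have h1 : HasProd (fun v : HeightOneSpectrum (𝓞 K) => hlocT m A n s v) (HfT m A n s) :=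
    (multipliable_of_bound hβ fun v => hb s (fun k => by linarith [hs k]) v).hasProd
  have h2 := (hasProd_ZT hA n (s := s) (fun k => by linarith [hs k])).mul h1
  rw [← h2.tprod_eq]
  refine tprod_congr fun v => ?_
  have hZ : ZT A n s v ≠ 0 := ZT_ne_zero (m := m) hA (σ := cT m θ)
    (fun k => by unfold cT; linarith [hs k]) (by unfold cT; exact le_rfl) n v
  unfold hlocT
  field_simp

end

end Pool.Agent.T6.H9.TP
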