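import Pool.Agent.T6.H9.TP.Lex

/-!
# Local factors of tensor products

Owner helper9.
-/

set_option autoImplicit false
set_option linter.unusedSectionVars false
set_option linter.style.haveILetI false
set_option linter.unusedVariables false

open Filter Topology Polynomial NumberField IsDedekindDomain

namespace Pool.Agent.T6.H9.TP

open Pool.Agent.T6.H9.MV Pool.Agent.T6.H9.HY Pool.Agent.T6.H9.TensorL Pool.Agent.H341R2.Sharp

section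

variable {K : Type} [Field K] [NumberField K] {m r : ℕ}

open Classical in
/-- the local factor of one L-function -/
noncomputable def locT {e : ℕ} (A : HeightOneSpectrum (𝓞 K) → Fin e → ℂ)
    (v : HeightOneSpectrum (𝓞 K)) (t : Fin m → kv v) (s : ℂ) : ℂ :=
  if (2 : 𝓞 K) ∈ v.asIdeal then 1 else
    if Squarefree (mkP m t) then ∏ i, EF (mkP m t) (A v i * (qv v : ℂ) ^ (-s - 1 / 2)) else 1

variable {d : Fin r → ℕ}

/-- the product of powers of local factors -/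
noncomputable def glT (m : ℕ) (A : ∀ k : Fin r, HeightOneSpectrum (𝓞 K) → Fin (d k) → ℂ)
    (n : Fin r → ℤ) (s : Fin r → ℂ) (v : HeightOneSpectrum (𝓞 K))
    (t : Fin m → kv v) : ℂ := ∏ k, locT (A k) v t (s k) ^ n k

/-- the twisted eigenvalues -/
noncomputable def xT (A : ∀ k : Fin r, HeightOneSpectrum (𝓞 K) → Fin (d k) → ℂ)
    (s : Fin r → ℂ) (v : HeightOneSpectrum (𝓞 K)) (k : Fin r) : Fin (d k) → ℂ :=
  fun i => A k v i * (qv v : ℂ) ^ (-(s k))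

/-- the inverse of the local factors of the polar part -/
noncomputable def ZT (A : ∀ k : Fin r, HeightOneSpectrum (𝓞 K) → Fin (d k) → ℂ)
    (n : Fin r → ℤ) (s : Fin r → ℂ) (v : HeightOneSpectrum (𝓞 K)) : ℂ :=
  (∏ k, (lam2 (xT A s v k) 1 ^ (n k * (n k + 1) / 2) *
      sym2 (xT A s v k) 1 ^ (n k * (n k - 1) / 2))) *
    ∏ p ∈ (Finset.univ : Finset (Fin r × Fin r)).filter (fun p => p.1 < p.2),
      rs (xT A s v p.1) (xT A s v p.2) 1 ^ (n p.1 * n p.2)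

/-- the correction factor -/
noncomputable def hlocT (m : ℕ) (A : ∀ k : Fin r, HeightOneSpectrum (𝓞 K) → Fin (d k) → ℂ)
    (n : Fin r → ℤ) (s : Fin r → ℂ) (v : HeightOneSpectrum (𝓞 K)) : ℂ :=
  fmean (glT m A n s v) * ZT A n s v

/-- the points at which the local estimate is applied -/
noncomputable def tT (A : ∀ k : Fin r, HeightOneSpectrum (𝓞 K) → Fin (d k) → ℂ)
    (s : Fin r → ℂ) (v : HeightOneSpectrum (𝓞 K)) (a : Fin (RL d)) : ℂ :=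
  A (ofLex (eL d a)).1 v (ofLex (eL d a)).2 * (qv v : ℂ) ^ (-s (ofLex (eL d a)).1 - 1 / 2)

/-- the exponents -/
def nT (n : Fin r → ℤ) (a : IL d) : ℤ := n (fL a)

lemma glT_two (A : ∀ k : Fin r, HeightOneSpectrum (𝓞 K) → Fin (d k) → ℂ)
    (n : Fin r → ℤ) (s : Fin r → ℂ) {v : HeightOneSpectrum (𝓞 K)}
    (h2 : (2 : 𝓞 K) ∈ v.asIdeal) (t : Fin m → kv v) : glT m A n s v t = 1 := by
  unfold glT locT
  simp [h2]

lemma prod_FinR (f : IL d → ℂ) : ∏ a : Fin (RL d), f (eL d a) = ∏ k, ∏ i, f (toLex ⟨k, i⟩) := by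
  rw [← prod_IL]
  exact Fintype.prod_equiv (eL d).toEquiv _ _ fun _ => rfl

lemma glT_eq (A : ∀ k : Fin r, HeightOneSpectrum (𝓞 K) → Fin (d k) → ℂ)
    (n : Fin r → ℤ) (s : Fin r → ℂ) {v : HeightOneSpectrum (𝓞 K)}
    (h2 : (2 : 𝓞 K) ∉ v.asIdeal) (t : Fin m → kv v) :
    glT m A n s v t = WF (kv v) (fun a => nT n (eL d a)) m (tT A s v) t := by
  unfold glT locT WF
  by_cases h : Squarefree (mkP m t)
  · rw [if_pos h]
    have h1 := prod_FinR (d := d) (fun a =>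
      EF (mkP m t) (A (ofLex a).1 v (ofLex a).2 * (qv v : ℂ) ^ (-s (ofLex a).1 - 1 / 2)) ^ nT n a)
    have h3 : ∏ a : Fin (RL d), EF (mkP m t) (tT A s v a) ^ nT n (eL d a) =
        ∏ a : Fin (RL d), (fun a => EF (mkP m t) (A (ofLex a).1 v (ofLex a).2 *
          (qv v : ℂ) ^ (-s (ofLex a).1 - 1 / 2)) ^ nT n a) (eL d a) := rfl
    rw [h3, h1]
    refine Finset.prod_congr rfl fun k _ => ?_
    rw [if_neg h2, if_pos h, ← Finset.prod_zpow]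
    rfl
  · rw [if_neg h]
    refine Finset.prod_eq_one fun k _ => ?_
    rw [if_neg h2, if_neg h, one_zpow]

/-! ### sizes -/

lemma kapT {θ σ : ℝ} {a : ℂ} (v : HeightOneSpectrum (𝓞 K)) (ha : ‖a‖ ≤ (qv v : ℝ) ^ θ) {s : ℂ}
    (hs : σ ≤ s.re) :
    √(qv v : ℝ) * ‖a * (qv v : ℂ) ^ (-s - 1 / 2)‖ ≤ (qv v : ℝ) ^ (θ - σ) := by
  have h0 := qv_pos v
  have h1 : ‖(qv v : ℂ) ^ (-s - 1 / 2)‖ = (qv v : ℝ) ^ (-s.re - 1 / 2) := by
    rw [Complex.norm_natCast_cpow_of_pos (Nat.pos_of_ne_zero (qv_ne_zero v))]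
    congr 1
    simp
  rw [norm_mul, h1, Real.sqrt_eq_rpow]
  calc (qv v : ℝ) ^ (1 / 2 : ℝ) * (‖a‖ * (qv v : ℝ) ^ (-s.re - 1 / 2)) ≤
      (qv v : ℝ) ^ (1 / 2 : ℝ) * ((qv v : ℝ) ^ θ * (qv v : ℝ) ^ (-s.re - 1 / 2)) := by
        gcongr
    _ = (qv v : ℝ) ^ (θ - s.re) := by
        rw [← Real.rpow_add h0, ← Real.rpow_add h0]
        congr 1
        ring
    _ ≤ (qv v : ℝ) ^ (θ - σ) := Real.rpow_le_rpow_of_exponent_le (qv_one_le v) (by linarith)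

lemma xT_norm {θ σ : ℝ} {a : ℂ} (v : HeightOneSpectrum (𝓞 K)) (ha : ‖a‖ ≤ (qv v : ℝ) ^ θ) {s : ℂ}
    (hs : σ ≤ s.re) : ‖a * (qv v : ℂ) ^ (-s)‖ ≤ (qv v : ℝ) ^ (θ - σ) := by
  have h0 := qv_pos v
  have h1 : ‖(qv v : ℂ) ^ (-s)‖ = (qv v : ℝ) ^ (-s.re) := by
    rw [Complex.norm_natCast_cpow_of_pos (Nat.pos_of_ne_zero (qv_ne_zero v))]
    congr 1
  rw [norm_mul, h1]
  calc ‖a‖ * (qv v : ℝ) ^ (-s.re) ≤ (qv v : ℝ) ^ θ * (qv v : ℝ) ^ (-s.re) := by gcongr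
    _ = (qv v : ℝ) ^ (θ - s.re) := by
        rw [← Real.rpow_add h0]
        congr 1
    _ ≤ (qv v : ℝ) ^ (θ - σ) := Real.rpow_le_rpow_of_exponent_le (qv_one_le v) (by linarith)

lemma kapT_rho (v : HeightOneSpectrum (𝓞 K)) {θ σ : ℝ} (hσ : θ + 1 / ((m : ℝ) + 1) ≤ σ) :
    (qv v : ℝ) ^ (θ - σ) ≤ rhoH m ^ 2 := by
  have h1 := kap_rho (m := m) v (σ := σ - θ + 1 / 2) (by unfold cH; linarith)
  have h2 : 1 / 2 - (σ - θ + 1 / 2) = θ - σ := by ring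
  rwa [h2] at h1

lemma q_tt (A : ∀ k : Fin r, HeightOneSpectrum (𝓞 K) → Fin (d k) → ℂ)
    (s : Fin r → ℂ) (v : HeightOneSpectrum (𝓞 K)) (a b : Fin (RL d)) :
    (qv v : ℂ) * (tT A s v a * tT A s v b) =
      xL (xT A s v) (eL d a) * xL (xT A s v) (eL d b) := by
  have h0 : (qv v : ℂ) ≠ 0 := by exact_mod_cast qv_ne_zero v
  unfold tT xL xT
  have h1 : ∀ z : ℂ, (qv v : ℂ) ^ (-z - 1 / 2) = (qv v : ℂ) ^ (-z) * (qv v : ℂ) ^ (-(1 / 2) : ℂ) := by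
    intro z
    rw [← Complex.cpow_add _ _ h0]
    congr 1
  have h2 : (qv v : ℂ) ^ (-(1 / 2) : ℂ) * (qv v : ℂ) ^ (-(1 / 2) : ℂ) * (qv v : ℂ) = 1 := by
    nth_rewrite 3 [← Complex.cpow_one (qv v : ℂ)]
    rw [← Complex.cpow_add _ _ h0, ← Complex.cpow_add _ _ h0]
    norm_num
  rw [h1, h1]
  linear_combination (A (ofLex (eL d a)).1 v (ofLex (eL d a)).2 *
    (qv v : ℂ) ^ (-(s (ofLex (eL d a)).1)) * (A (ofLex (eL d b)).1 v (ofLex (eL d b)).2 *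
    (qv v : ℂ) ^ (-(s (ofLex (eL d b)).1)))) * h2

lemma xx_lt {θ σ : ℝ} {A : ∀ k : Fin r, HeightOneSpectrum (𝓞 K) → Fin (d k) → ℂ}
    (hA : ∀ k v i, ‖A k v i‖ ≤ (qv v : ℝ) ^ θ) {s : Fin r → ℂ} (hs : ∀ k, σ ≤ (s k).re)
    (hσ : θ + 1 / ((m : ℝ) + 1) ≤ σ) (v : HeightOneSpectrum (𝓞 K)) (k l : Fin r)
    (i : Fin (d k)) (j : Fin (d l)) : ‖xT A s v k i * xT A s v l j‖ ≤ rhoH m := by
  have h1 := (xT_norm v (hA k v i) (hs k)).trans (kapT_rho (m := m) v hσ)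
  have h2 := (xT_norm v (hA l v j) (hs l)).trans (kapT_rho (m := m) v hσ)
  have h3 := rho_sq_le m
  have h4 := rhoH_pos m
  have h5 := rhoH_lt_one m
  rw [norm_mul]
  calc ‖xT A s v k i‖ * ‖xT A s v l j‖ ≤ rhoH m ^ 2 * rhoH m ^ 2 :=
        mul_le_mul h1 h2 (norm_nonneg _) (by positivity)
    _ ≤ rhoH m * 1 := by
        apply mul_le_mul h3 (h3.trans h5.le) (by positivity) h4.le
    _ = rhoH m := mul_one _

lemma ZT_eq {θ σ : ℝ} {A : ∀ k : Fin r, HeightOneSpectrum (𝓞 K) → Fin (d k) → ℂ}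
    (hA : ∀ k v i, ‖A k v i‖ ≤ (qv v : ℝ) ^ θ) {s : Fin r → ℂ} (hs : ∀ k, σ ≤ (s k).re)
    (hσ : θ + 1 / ((m : ℝ) + 1) ≤ σ) (n : Fin r → ℤ) (v : HeightOneSpectrum (𝓞 K)) :
    ZT A n s v = ∏ p ∈ prs (RL d), (1 - (qv v : ℂ) * (tT A s v p.1 * tT A s v p.2)) ^
      ex (fun a => nT n (eL d a)) p := by
  unfold ZT
  rw [← lex_prod (xT A s v) n]
  · refine Finset.prod_congr rfl fun p _ => ?_
    rw [q_tt]
    rfl
  · intro k i l j h
    have h1 := xx_lt (m := m) hA hs hσ v k l i j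
    have h2 : xT A s v k i * xT A s v l j = 1 := (sub_eq_zero.1 h).symm
    rw [h2, norm_one] at h1
    have := rhoH_lt_one m
    linarith

lemma one_sub_Lam {θ σ : ℝ} {A : ∀ k : Fin r, HeightOneSpectrum (𝓞 K) → Fin (d k) → ℂ}
    (hA : ∀ k v i, ‖A k v i‖ ≤ (qv v : ℝ) ^ θ) {s : Fin r → ℂ} (hs : ∀ k, σ ≤ (s k).re)
    (hσ : θ + 1 / ((m : ℝ) + 1) ≤ σ) (v : HeightOneSpectrum (𝓞 K)) (a b : Fin (RL d)) :
    (Lam (rhoH m))⁻¹ ≤ ‖1 - (qv v : ℂ) * (tT A s v a * tT A s v b)‖ ∧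
      ‖1 - (qv v : ℂ) * (tT A s v a * tT A s v b)‖ ≤ Lam (rhoH m) := by
  have hk : ∀ a : Fin (RL d), √(qv v : ℝ) * ‖tT A s v a‖ ≤ rhoH m := fun a =>
    ((kapT v (hA _ v _) (hs _)).trans (kapT_rho (m := m) v hσ)).trans (rho_sq_le m)
  have := pair_Lam (q := (qv v : ℝ)) (T := tT A s v a) (T' := tT A s v b)
    (qv_pos v) (hk a) (hk b) (rhoH_lt_one m)
  simpa using this

lemma norm_ZT_le {θ σ : ℝ} {A : ∀ k : Fin r, HeightOneSpectrum (𝓞 K) → Fin (d k) → ℂ}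
    (hA : ∀ k v i, ‖A k v i‖ ≤ (qv v : ℝ) ^ θ) {s : Fin r → ℂ} (hs : ∀ k, σ ≤ (s k).re)
    (hσ : θ + 1 / ((m : ℝ) + 1) ≤ σ) (n : Fin r → ℤ) (v : HeightOneSpectrum (𝓞 K)) :
    ‖ZT A n s v‖ ≤ Lam (rhoH m) ^ Np (fun a : Fin (RL d) => nT n (eL d a)) := by
  rw [ZT_eq (m := m) hA hs hσ, norm_prod, Np, ← Finset.prod_pow_eq_pow_sum]
  refine Finset.prod_le_prod (fun _ _ => norm_nonneg _) fun p _ => ?_
  obtain ⟨b1, b2⟩ := one_sub_Lam (m := m) hA hs hσ v p.1 p.2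
  exact norm_zpow_le b1 b2 (one_le_Lam _) _

lemma ZT_ne_zero {θ σ : ℝ} {A : ∀ k : Fin r, HeightOneSpectrum (𝓞 K) → Fin (d k) → ℂ}
    (hA : ∀ k v i, ‖A k v i‖ ≤ (qv v : ℝ) ^ θ) {s : Fin r → ℂ} (hs : ∀ k, σ ≤ (s k).re)
    (hσ : θ + 1 / ((m : ℝ) + 1) ≤ σ) (n : Fin r → ℤ) (v : HeightOneSpectrum (𝓞 K)) :
    ZT A n s v ≠ 0 := by
  rw [ZT_eq (m := m) hA hs hσ]
  refine Finset.prod_ne_zero_iff.2 fun p _ => zpow_ne_zero _ ?_
  have h := (one_sub_Lam (m := m) hA hs hσ v p.1 p.2).1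
  have hL := one_le_Lam (rhoH m)
  exact norm_pos_iff.1 (lt_of_lt_of_le (by positivity) h)

/-- **The estimates at all primes.** -/
theorem boundsT (hm : Odd m) (θ : ℝ) (n : Fin r → ℤ)
    {A : ∀ k : Fin r, HeightOneSpectrum (𝓞 K) → Fin (d k) → ℂ}
    (hA : ∀ k v i, ‖A k v i‖ ≤ (qv v : ℝ) ^ θ) : ∃ C : ℝ, 0 ≤ C ∧
    ∀ (v : HeightOneSpectrum (𝓞 K)) (σ : ℝ) (s : Fin r → ℂ), (2 : 𝓞 K) ∉ v.asIdeal →
      θ + 1 / ((m : ℝ) + 1) ≤ σ → (∀ k, σ ≤ (s k).re) →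
      (∀ t : Fin m → kv v, ‖glT m A n s v t - 1‖ ≤ C * (qv v : ℝ) ^ (θ - σ)) ∧
      ‖hlocT m A n s v - 1‖ ≤ C * ((qv v : ℝ) ^ (-(1 + σ - θ)) +
        (qv v : ℝ) ^ (-((σ - θ) * ((m : ℝ) + 1)))) := by
  obtain ⟨C, hC, h⟩ := hyper_sqf (fun a : Fin (RL d) => nT n (eL d a)) hm (rhoH_pos m)
    (rhoH_lt_one m)
  refine ⟨C, hC, fun v σ s h2 hσ hs => ?_⟩
  have hq0 := qv_pos v
  set κ : ℝ := (qv v : ℝ) ^ (θ - σ) with hκ
  have hκ0 : 0 < κ := by positivity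
  have h1 := h (kv v) (ringChar_kv h2) κ hκ0 (kapT_rho v hσ) (tT A s v)
    (fun a => by
      rw [card_kv']
      exact kapT v (hA _ v _) (hs _))
  obtain ⟨h3, h4⟩ := h1
  constructor
  · intro t
    rw [glT_eq A n s h2 t]
    exact h3 t
  · have e0 : glT m A n s v = WF (kv v) (fun a => nT n (eL d a)) m (tT A s v) :=
      funext fun t => glT_eq A n s h2 t
    have e1 : hlocT m A n s v = fmean (WF (kv v) (fun a => nT n (eL d a)) m (tT A s v)) *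
        ∏ p ∈ prs (RL d), (1 - (Fintype.card (kv v) : ℂ) *
          (tT A s v p.1 * tT A s v p.2)) ^ ex (fun a => nT n (eL d a)) p := by
      unfold hlocT
      rw [e0, ZT_eq (m := m) hA hs hσ, card_kv']
    rw [e1]
    refine h4.trans (le_of_eq ?_)
    rw [card_kv']
    have e2 : κ / (qv v : ℝ) = (qv v : ℝ) ^ (-(1 + σ - θ)) := by
      rw [hκ]
      nth_rewrite 2 [← Real.rpow_one (qv v : ℝ)]
      rw [← Real.rpow_sub hq0]
      congr 1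
      ring
    have e3 : κ ^ (m + 1) = (qv v : ℝ) ^ (-((σ - θ) * ((m : ℝ) + 1))) := by
      rw [hκ, ← Real.rpow_natCast, ← Real.rpow_mul hq0.le]
      congr 1
      push_cast
      ring
    rw [e2, e3]

open Classical in
/-- **Uniform estimate** of the correction factors. -/
theorem hlocT_bound (hm : Odd m) (θ : ℝ) (n : Fin r → ℤ)
    {A : ∀ k : Fin r, HeightOneSpectrum (𝓞 K) → Fin (d k) → ℂ}
    (hA : ∀ k v i, ‖A k v i‖ ≤ (qv v : ℝ) ^ θ) {δ : ℝ} (hδ : 0 < δ) :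
    ∃ β : HeightOneSpectrum (𝓞 K) → ℝ, Summable β ∧
      ∀ s : Fin r → ℂ, (∀ k, θ + 1 / ((m : ℝ) + 1) + δ < (s k).re) →
        ∀ v, ‖hlocT m A n s v - 1‖ ≤ β v := by
  obtain ⟨C, hC, hb⟩ := boundsT (K := K) hm θ n hA
  set σ : ℝ := θ + 1 / ((m : ℝ) + 1) + δ with hσ
  have hm1 : (0 : ℝ) < (m : ℝ) + 1 := by positivity
  have hm2 : (0 : ℝ) < 1 / ((m : ℝ) + 1) := by positivity
  have hx1 : 1 < 1 + σ - θ := by linarith
  have hx2 : 1 < (σ - θ) * ((m : ℝ) + 1) := by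
    have : (σ - θ) * ((m : ℝ) + 1) = 1 + δ * ((m : ℝ) + 1) := by
      rw [hσ]
      field_simp
      ring
    rw [this]
    have : 0 < δ * ((m : ℝ) + 1) := by positivity
    linarith
  set M : ℝ := Lam (rhoH m) ^ Np (fun a : Fin (RL d) => nT n (eL d a)) + 1 with hM
  have hL := one_le_Lam (rhoH m)
  have hM0 : 0 ≤ M := by positivity
  refine ⟨fun v => C * ((qv v : ℝ) ^ (-(1 + σ - θ)) +
        (qv v : ℝ) ^ (-((σ - θ) * ((m : ℝ) + 1)))) +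
        (if (2 : 𝓞 K) ∈ v.asIdeal then M else 0), ?_, ?_⟩
  · refine Summable.add (((summable_qv hx1).add (summable_qv hx2)).mul_left C) ?_
    refine summable_of_hasFiniteSupport (finite_two (K := K) |>.subset fun v hv => ?_)
    rw [Function.mem_support] at hv
    by_contra h
    exact hv (if_neg h)
  · intro s hs v
    have hq0 := qv_pos v
    beta_reduce
    by_cases h2 : (2 : 𝓞 K) ∈ v.asIdeal
    · rw [if_pos h2]
      have h1 : fmean (glT m A n s v) = 1 := by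
        have : glT m A n s v = fun _ => 1 := funext fun t => glT_two A n s h2 t
        rw [this, fmean_one]
      have h3 : ‖hlocT m A n s v - 1‖ ≤ M := by
        unfold hlocT
        rw [h1, one_mul]
        refine (norm_sub_le _ _).trans ?_
        rw [norm_one]
        exact add_le_add (norm_ZT_le (m := m) hA (fun k => (hs k).le) (by linarith) n v) le_rfl
      have h4 : 0 ≤ C * ((qv v : ℝ) ^ (-(1 + σ - θ)) +
        (qv v : ℝ) ^ (-((σ - θ) * ((m : ℝ) + 1)))) := by positivity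
      linarith
    · rw [if_neg h2, add_zero]
      exact (hb v σ s h2 (by linarith) fun k => (hs k).le).2

lemma inv_m_le (hm : 1 ≤ m) : 1 / ((m : ℝ) + 1) ≤ 1 / 2 := by
  have h1 : (1 : ℝ) ≤ m := by exact_mod_cast hm
  exact one_div_le_one_div_of_le (by norm_num) (by linarith)

lemma exists_sigma' {c : ℝ} {s : Fin r → ℂ} (hs : s ∈ Om r c) :
    ∃ σ : ℝ, c < σ ∧ ∀ k, σ ≤ (s k).re := by
  obtain ⟨δ, hδ, h⟩ := exists_delta hs
  exact ⟨c + δ + δ, by linarith, fun k => (h k).le⟩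

/-- the bound for the local functions in the region of convergence -/
theorem glT_bound (hm : Odd m) {θ : ℝ} (n : Fin r → ℤ)
    {A : ∀ k : Fin r, HeightOneSpectrum (𝓞 K) → Fin (d k) → ℂ}
    (hA : ∀ k v i, ‖A k v i‖ ≤ (qv v : ℝ) ^ θ) {s : Fin r → ℂ} (hs : s ∈ Om r (1 + θ)) :
    ∃ β : HeightOneSpectrum (𝓞 K) → ℝ, Summable β ∧
      ∀ v (t : Fin m → kv v), ‖glT m A n s v t - 1‖ ≤ β v := by
  obtain ⟨C, hC, hb⟩ := boundsT (K := K) hm θ n hA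
  obtain ⟨σ, hσ, hsσ⟩ := exists_sigma' hs
  refine ⟨fun v => C * (qv v : ℝ) ^ (θ - σ), ?_, fun v t => ?_⟩
  · have h1 := summable_qv (K := K) (x := σ - θ) (by linarith)
    refine (h1.mul_left C).congr fun v => ?_
    have : -(σ - θ) = θ - σ := by ring
    rw [this]
  · by_cases h2 : (2 : 𝓞 K) ∈ v.asIdeal
    · rw [glT_two A n s h2, sub_self, norm_zero]
      positivity
    · have hc := inv_m_le (m := m) hm.pos
      exact (hb v σ s h2 (by linarith) hsσ).1 t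

end

end Pool.Agent.T6.H9.TP
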